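import Mathlib

/-!
# Project MVS (MP_b1a3a4_al): the definitions used in the final statements

* `IsFP R n A`: the `R`-module `A` is of type `FP_n`;
* `Triv k M`: the trivial module `k` over the monoid ring `k[M]`;
* `FPn k M n`: the trivial module `k` is of type `FP_n` over `k[M]`;
* `projJ L J`: the coordinate projection `p_J`;
* `posSub χ`: the submonoid `S_χ = {χ ≥ 0}`;
* `InSigma k n χ`: the class of `χ` lies in `Σ^n(S, k)`;
* `InjOn S I`: the projection `p_I` is injective on `S`;
* `VirtSurj S I n`: `p_J(S)` has finite index for all `J ⊆ I` with `n` elements;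
* `SameProj S χ n`: `p_J(S_χ) = p_J(S)` for all `J` with `n` elements.
-/

set_option linter.all false

namespace Pool.Agent.Lib.MP_b1a3a4_al.MVS

open Finsupp

/-! ## Type `FP_n` -/

/-- The module `A` over the ring `R` is of type `FP_n`: it is finitely generated if `n = 0`, and for
`n + 1` it is the quotient of a finitely generated free module by a submodule of type `FP_n`. -/
def IsFP (R : Type) [Ring R] : ℕ → ∀ (A : Type) [AddCommGroup A] [Module R A], Prop
  | 0, A, _, _ => Module.Finite R A
  | n + 1, A, _, _ => ∃ (r : ℕ) (f : (Fin r →₀ R) →ₗ[R] A),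
      Function.Surjective f ∧ IsFP R n (LinearMap.ker f)

/-- The augmentation `k[M] → k` of a monoid ring. -/
noncomputable def aug (k M : Type) [CommRing k] [Monoid M] : MonoidAlgebra k M →+* k :=
  MonoidAlgebra.liftNCRingHom (RingHom.id k) (1 : M →* k) (fun _ _ => Commute.one_right _)

@[simp] lemma aug_single (k M : Type) [CommRing k] [Monoid M] (g : M) (c : k) :
    aug k M (MonoidAlgebra.single g c) = c := by
  simp [aug]

/-- The trivial `k[M]`-module `k`. -/
def Triv (k M : Type) : Type := k

noncomputable instance instTrivAddCommGroup (k M : Type) [CommRing k] : AddCommGroup (Triv k M) :=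
  inferInstanceAs (AddCommGroup k)

/-- `k[M]` acts on the trivial module through the augmentation. -/
noncomputable instance instTrivModule (k M : Type) [CommRing k] [Monoid M] :
    Module (MonoidAlgebra k M) (Triv k M) :=
  Module.compHom k (aug k M)

lemma triv_smul (k M : Type) [CommRing k] [Monoid M] (a : MonoidAlgebra k M) (x : Triv k M) :
    a • x = (show Triv k M from (aug k M a * (show k from x) : k)) := rfl

/-- A monoid is of type `FP_n` over `k`. -/
def FPn (k M : Type) [CommRing k] [Monoid M] (n : ℕ) : Prop :=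
  IsFP (MonoidAlgebra k M) n (Triv k M)

/-! ## Products and characters -/

/-- The projection `p_J` of a product of groups to the coordinates in `J`. -/
def projJ {I : Type} (L : I → Type) [∀ i, Group (L i)] (J : Finset I) :
    (∀ i, L i) →* (∀ j : J, L j) where
  toFun x j := x j
  map_one' := rfl
  map_mul' _ _ := rfl

/-- `S_χ = {s : χ(s) ≥ 0}` (written multiplicatively). -/
def posSub {S : Type} [Group S] (χ : S →* Multiplicative ℝ) : Submonoid S where
  carrier := {g | 1 ≤ χ g}
  one_mem' := by simp
  mul_mem' := by
    intro a b ha hb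
    simp only [Set.mem_setOf_eq, map_mul] at *
    exact one_le_mul ha hb

/-- `[χ] ∈ Σ^n(S, k)`: the trivial module `k` is of type `FP_n` over `k[S_χ]`. -/
def InSigma (k : Type) [CommRing k] (n : ℕ) {S : Type} [Group S] (χ : S →* Multiplicative ℝ) :
    Prop := FPn k (posSub χ) n

/-- The projection `p_I` is injective on `S`. -/
def InjOn {m : ℕ} {L : Fin m → Type} [∀ i, Group (L i)] (S : Subgroup (∀ i, L i))
    (I : Finset (Fin m)) : Prop :=
  ∀ s ∈ S, (∀ i ∈ I, s i = 1) → s = 1

/-- `p_J(S)` has finite index in the product of the `L j`, `j ∈ J`, for all `J ⊆ I` with `n`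
elements. -/
def VirtSurj {m : ℕ} {L : Fin m → Type} [∀ i, Group (L i)] (S : Subgroup (∀ i, L i))
    (I : Finset (Fin m)) (n : ℕ) : Prop :=
  ∀ J : Finset (Fin m), J ⊆ I → J.card = n → (S.map (projJ L J)).FiniteIndex

/-- `p_J(S_χ) = p_J(S)` for all `J` with `n` elements. -/
def SameProj {m : ℕ} {L : Fin m → Type} [∀ i, Group (L i)] (S : Subgroup (∀ i, L i))
    (χ : S →* Multiplicative ℝ) (n : ℕ) : Prop :=
  ∀ J : Finset (Fin m), J.card = n →
    projJ L J '' (Subtype.val '' (posSub χ : Set S)) = projJ L J '' (S : Set (∀ i, L i))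

end Pool.Agent.Lib.MP_b1a3a4_al.MVS
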