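import Pool.Agent.Lib.MP_b1a3a4_al.MVS.Core

/-!
# Project MVS (MP_b1a3a4_al): definitions

Based free complexes over a ring, base change, type `FP_n`, characters, push maps.
-/

set_option linter.all false

namespace Pool.Agent.Lib.MP_b1a3a4_al.MVS

open Finsupp

/-! ## Based free complexes -/

/-- Differentials of a based free complex with bases `X q`. -/
abbrev Dif (R : Type) [Ring R] (X : ℕ → Type) : Type :=
  ∀ q : ℕ, (X (q + 1) →₀ R) →ₗ[R] (X q →₀ R)

/-- `d ∘ d = 0`. -/
def IsCx {R : Type} [Ring R] {X : ℕ → Type} (d : Dif R X) : Prop :=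
  ∀ q z, d q (d (q + 1) z) = 0

/-- A cycle of degree `q`; in degree `0` every element is a cycle. -/
def IsCyc {R : Type} [Ring R] {X : ℕ → Type} (d : Dif R X) : ∀ q : ℕ, (X q →₀ R) → Prop
  | 0, _ => True
  | q + 1, z => d q z = 0

/-- The (not augmented) complex is exact in degree `q`. -/
def ExactAt {R : Type} [Ring R] {X : ℕ → Type} (d : Dif R X) (q : ℕ) : Prop :=
  ∀ z, IsCyc d q z → ∃ y, d q y = z

/-- Exact in all degrees `< n`. -/
def ExactLT {R : Type} [Ring R] {X : ℕ → Type} (d : Dif R X) (n : ℕ) : Prop :=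
  ∀ q, q < n → ExactAt d q

/-- `s` is a contraction in degrees `< n`. -/
def Contr {R : Type} [Ring R] {X : ℕ → Type} (d : Dif R X) (n : ℕ)
    (s : ∀ q : ℕ, (X q →₀ R) →ₗ[R] (X (q + 1) →₀ R)) : Prop :=
  (0 < n → ∀ z, d 0 (s 0 z) = z) ∧
    ∀ q, q + 1 < n → ∀ z, d (q + 1) (s (q + 1) z) + s q (d q z) = z

/-- A based free resolution of a module. -/
structure FreeRes (R : Type) [Ring R] (A : Type) [AddCommGroup A] [Module R A] where
  X : ℕ → Type
  d : Dif R X
  ε : (X 0 →₀ R) →ₗ[R] A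
  ε_surj : Function.Surjective ε
  ex0 : ∀ z, ε z = 0 ↔ ∃ y, d 0 y = z
  ex : ∀ q z, d q z = 0 ↔ ∃ y, d (q + 1) y = z

/-- The resolution has finite bases in degrees `≤ n`. -/
def FreeRes.Fin {R : Type} [Ring R] {A : Type} [AddCommGroup A] [Module R A]
    (F : FreeRes R A) (n : ℕ) : Prop :=
  ∀ q, q ≤ n → Finite (F.X q)

/-- Resolutions of a group. -/
abbrev GRes (k G : Type) [CommRing k] [Group G] : Type 1 :=
  FreeRes (MonoidAlgebra k G) (Triv k G)

/-! ## Base change -/

/-- The linear map `R^(X) → R^(Y)` given by the matrix `b : X → Λ^(Y)` and a ring homomorphism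
`θ : Λ → R`. -/
noncomputable def bcf {Λ R : Type} [Ring Λ] [Ring R] (θ : Λ →+* R) {X Y : Type}
    (b : X → (Y →₀ Λ)) : (X →₀ R) →ₗ[R] (Y →₀ R) :=
  Finsupp.linearCombination R (fun x => (b x).mapRange θ (map_zero θ))

/-- Base change of a linear map between based free modules. -/
noncomputable def bc {Λ R : Type} [Ring Λ] [Ring R] (θ : Λ →+* R) {X Y : Type}
    (A : (X →₀ Λ) →ₗ[Λ] (Y →₀ Λ)) : (X →₀ R) →ₗ[R] (Y →₀ R) :=
  bcf θ (fun x => A (Finsupp.single x 1))

/-- Base change of a complex. -/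
noncomputable def bcD {Λ R : Type} [Ring Λ] [Ring R] (θ : Λ →+* R) {X : ℕ → Type}
    (d : Dif Λ X) : Dif R X := fun q => bc θ (d q)

/-- apply a ring homomorphism to all coordinates -/
noncomputable def mp {Λ R : Type} [Ring Λ] [Ring R] (θ : Λ →+* R) {Y : Type} (v : Y →₀ Λ) :
    Y →₀ R := v.mapRange θ (map_zero θ)

section basic

variable {Λ R R' : Type} [Ring Λ] [Ring R] [Ring R'] (θ : Λ →+* R) {X Y Z : Type}

@[simp] lemma mp_apply (v : Y →₀ Λ) (y : Y) : mp θ v y = θ (v y) := by simp [mp]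

@[simp] lemma mp_zero : mp θ (0 : Y →₀ Λ) = 0 := by ext; simp

@[simp] lemma mp_add (v w : Y →₀ Λ) : mp θ (v + w) = mp θ v + mp θ w := by ext; simp

@[simp] lemma mp_neg (v : Y →₀ Λ) : mp θ (-v) = -mp θ v := by ext; simp

@[simp] lemma mp_sub (v w : Y →₀ Λ) : mp θ (v - w) = mp θ v - mp θ w := by ext; simp

@[simp] lemma mp_smul (a : Λ) (v : Y →₀ Λ) : mp θ (a • v) = θ a • mp θ v := by ext; simp

@[simp] lemma mp_single (y : Y) (a : Λ) : mp θ (Finsupp.single y a) = Finsupp.single y (θ a) := by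
  ext z; classical
  simp [Finsupp.single_apply, apply_ite θ]

lemma mp_sum {ι : Type} (s : Finset ι) (f : ι → (Y →₀ Λ)) :
    mp θ (∑ i ∈ s, f i) = ∑ i ∈ s, mp θ (f i) := by
  ext y; simp [Finsupp.finset_sum_apply, map_sum]

lemma mp_mp (θ' : R →+* R') (v : Y →₀ Λ) : mp θ' (mp θ v) = mp (θ'.comp θ) v := by
  ext y; simp

lemma mp_id (v : Y →₀ Λ) : mp (RingHom.id Λ) v = v := by ext y; simp

lemma bcf_single (b : X → (Y →₀ Λ)) (x : X) (r : R) :
    bcf θ b (Finsupp.single x r) = r • mp θ (b x) := by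
  simp [bcf, mp]

lemma bc_single (A : (X →₀ Λ) →ₗ[Λ] (Y →₀ Λ)) (x : X) (r : R) :
    bc θ A (Finsupp.single x r) = r • mp θ (A (Finsupp.single x 1)) := bcf_single θ _ x r

/-- Key compatibility: `θ_* (b v) = (θ_* b)(θ_* v)`. -/
lemma bcf_mp (b : X → (Y →₀ Λ)) (v : X →₀ Λ) :
    bcf θ b (mp θ v) = mp θ (Finsupp.linearCombination Λ b v) := by
  induction v using Finsupp.induction_linear with
  | zero => simp
  | add v w hv hw => simp [hv, hw]
  | single x a => simp [bcf_single]

lemma bc_mp (A : (X →₀ Λ) →ₗ[Λ] (Y →₀ Λ)) (v : X →₀ Λ) :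
    bc θ A (mp θ v) = mp θ (A v) := by
  rw [bc, bcf_mp]
  congr 1
  induction v using Finsupp.induction_linear with
  | zero => simp
  | add v w hv hw => simp [hv, hw]
  | single x a =>
    rw [Finsupp.linearCombination_single, ← map_smul, Finsupp.smul_single, smul_eq_mul, mul_one]

/-- Two linear maps out of `R^(X)` which agree on basis elements are equal. -/
lemma lin_ext {M : Type} [AddCommGroup M] [Module R M] {f g : (X →₀ R) →ₗ[R] M}
    (h : ∀ x, f (Finsupp.single x 1) = g (Finsupp.single x 1)) : f = g :=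
  Finsupp.lhom_ext' (fun x => LinearMap.ext_ring (h x))

lemma bc_comp (A : (Y →₀ Λ) →ₗ[Λ] (Z →₀ Λ)) (B : (X →₀ Λ) →ₗ[Λ] (Y →₀ Λ)) :
    bc θ (A ∘ₗ B) = bc θ A ∘ₗ bc θ B := by
  apply lin_ext
  intro x
  simp [bc_single, bc_mp]

lemma bc_comp_bcf (A : (Y →₀ Λ) →ₗ[Λ] (Z →₀ Λ)) (b : X → (Y →₀ Λ)) :
    bc θ A ∘ₗ bcf θ b = bcf θ (fun x => A (b x)) := by
  apply lin_ext
  intro x
  simp [bcf_single, bc_mp]

lemma bcf_comp_bc (b : Y → (Z →₀ Λ)) (B : (X →₀ Λ) →ₗ[Λ] (Y →₀ Λ)) :
    bcf θ b ∘ₗ bc θ B =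
      bcf θ (fun x => Finsupp.linearCombination Λ b (B (Finsupp.single x 1))) := by
  apply lin_ext
  intro x
  simp [bcf_single, bc_single, bcf_mp]

lemma bc_add (A B : (X →₀ Λ) →ₗ[Λ] (Y →₀ Λ)) : bc θ (A + B) = bc θ A + bc θ B := by
  apply lin_ext
  intro x
  simp [bc_single]

lemma bc_sub (A B : (X →₀ Λ) →ₗ[Λ] (Y →₀ Λ)) : bc θ (A - B) = bc θ A - bc θ B := by
  apply lin_ext
  intro x
  simp [bc_single]

lemma bc_zero : bc θ (0 : (X →₀ Λ) →ₗ[Λ] (Y →₀ Λ)) = 0 := by
  apply lin_ext
  intro x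
  simp [bc_single]

lemma bc_id : bc θ (LinearMap.id : (X →₀ Λ) →ₗ[Λ] (X →₀ Λ)) = LinearMap.id := by
  apply lin_ext
  intro x
  simp [bc_single]

lemma bc_bc (θ' : R →+* R') (A : (X →₀ Λ) →ₗ[Λ] (Y →₀ Λ)) :
    bc θ' (bc θ A) = bc (θ'.comp θ) A := by
  apply lin_ext
  intro x
  simp [bc_single, mp_mp]

lemma bcD_isCx {X : ℕ → Type} {d : Dif Λ X} (h : IsCx d) : IsCx (bcD θ d) := by
  intro q z
  have : bc θ (d q) ∘ₗ bc θ (d (q + 1)) = 0 := by
    rw [← bc_comp]
    have h0 : d q ∘ₗ d (q + 1) = 0 := by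
      ext1 x; ext1; exact h q _
    rw [h0, bc_zero]
  exact LinearMap.congr_fun this z

lemma bcD_bcD {X : ℕ → Type} (θ' : R →+* R') (d : Dif Λ X) :
    bcD θ' (bcD θ d) = bcD (θ'.comp θ) d := by
  funext q
  exact bc_bc θ θ' (d q)

end basic

lemma FreeRes.isCx {R : Type} [Ring R] {A : Type} [AddCommGroup A] [Module R A]
    (F : FreeRes R A) : IsCx F.d := fun q z => (F.ex q _).2 ⟨z, rfl⟩

lemma FreeRes.ε_d {R : Type} [Ring R] {A : Type} [AddCommGroup A] [Module R A]
    (F : FreeRes R A) (z) : F.ε (F.d 0 z) = 0 := (F.ex0 _).2 ⟨z, rfl⟩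

/-- index types of a spliced resolution -/
def consX (Y : Type) (X : ℕ → Type) : ℕ → Type
  | 0 => Y
  | q + 1 => X q

/-- Splicing: a resolution of the kernel of a surjection `e : R^(Y) → A` gives one of `A`. -/
noncomputable def FreeRes.cons {R : Type} [Ring R] {A : Type} [AddCommGroup A] [Module R A]
    {Y : Type} (e : (Y →₀ R) →ₗ[R] A) (he : Function.Surjective e)
    (F : FreeRes R (LinearMap.ker e)) : FreeRes R A where
  X := consX Y F.X
  d := fun q => match q with
    | 0 => (LinearMap.ker e).subtype ∘ₗ F.ε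
    | q + 1 => F.d q
  ε := e
  ε_surj := he
  ex0 := by
    intro z
    constructor
    · intro h
      obtain ⟨y, hy⟩ := F.ε_surj ⟨z, h⟩
      exact ⟨y, congrArg Subtype.val hy⟩
    · rintro ⟨y, rfl⟩
      exact (F.ε y).2
  ex := by
    intro q z
    match q with
    | 0 =>
      show ((LinearMap.ker e).subtype ∘ₗ F.ε) z = 0 ↔ ∃ y, F.d 0 y = z
      rw [← F.ex0]
      simp
    | q + 1 => exact F.ex q z

/-! ## Characters and positions -/

/-- Characters of a group (possibly zero). -/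
abbrev Chr (G : Type) [Group G] : Type := Additive G →+ ℝ

/-- The value of a character. -/
def val {G : Type} [Group G] (χ : Chr G) (g : G) : ℝ := χ (Additive.ofMul g)

@[simp] lemma val_mul {G : Type} [Group G] (χ : Chr G) (a b : G) :
    val χ (a * b) = val χ a + val χ b := by simp [val]

@[simp] lemma val_one {G : Type} [Group G] (χ : Chr G) : val χ 1 = 0 := by simp [val]

@[simp] lemma val_inv {G : Type} [Group G] (χ : Chr G) (a : G) : val χ a⁻¹ = -val χ a := by
  simp [val]

@[simp] lemma val_pow {G : Type} [Group G] (χ : Chr G) (a : G) (n : ℕ) :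
    val χ (a ^ n) = n * val χ a := by simp [val]

@[simp] lemma val_zpow {G : Type} [Group G] (χ : Chr G) (a : G) (n : ℤ) :
    val χ (a ^ n) = n * val χ a := by simp [val]

@[simp] lemma val_add {G : Type} [Group G] (χ ψ : Chr G) (a : G) :
    val (χ + ψ) a = val χ a + val ψ a := rfl

@[simp] lemma val_neg {G : Type} [Group G] (χ : Chr G) (a : G) :
    val (-χ) a = -val χ a := rfl

@[simp] lemma val_smul {G : Type} [Group G] (c : ℝ) (χ : Chr G) (a : G) :
    val (c • χ) a = c * val χ a := rfl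

/-- Restriction of a character along a homomorphism. -/
def Chr.res {G H : Type} [Group G] [Group H] (χ : Chr G) (j : H →* G) : Chr H :=
  χ.comp (MonoidHom.toAdditive j)

@[simp] lemma val_res {G H : Type} [Group G] [Group H] (χ : Chr G) (j : H →* G) (h : H) :
    val (χ.res j) h = val χ (j h) := rfl

/-- The integral character given by a homomorphism to the infinite cyclic group. -/
def intChr {G : Type} [Group G] (ψ : G →* Multiplicative ℤ) : Chr G :=
  (Int.castAddHom ℝ).comp (MonoidHom.toAdditiveLeft ψ)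

@[simp] lemma val_intChr {G : Type} [Group G] (ψ : G →* Multiplicative ℤ) (g : G) :
    val (intChr ψ) g = ((Multiplicative.toAdd (ψ g) : ℤ) : ℝ) := rfl

/-- All positions of `v` are `≥ a`. -/
def LB {k G : Type} [CommRing k] [Group G] (χ : Chr G) (a : ℝ) {X : Type}
    (v : X →₀ MonoidAlgebra k G) : Prop :=
  ∀ x, ∀ g ∈ (v x).coeff.support, a ≤ val χ g

/-- All positions of `v` are `≤ a`. -/
def UB {k G : Type} [CommRing k] [Group G] (χ : Chr G) (a : ℝ) {X : Type}
    (v : X →₀ MonoidAlgebra k G) : Prop :=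
  ∀ x, ∀ g ∈ (v x).coeff.support, val χ g ≤ a

/-- All positions of `v` are `> 0`. -/
def PosV {k G : Type} [CommRing k] [Group G] (χ : Chr G) {X : Type}
    (v : X →₀ MonoidAlgebra k G) : Prop :=
  ∀ x, ∀ g ∈ (v x).coeff.support, 0 < val χ g

/-- Push maps in degrees `≤ n` in the direction of `χ`. -/
def Push {k G : Type} [CommRing k] [Group G] {X : ℕ → Type} (d : Dif (MonoidAlgebra k G) X)
    (χ : Chr G) (n : ℕ) : Prop :=
  ∃ s : ∀ q : ℕ, (X q →₀ MonoidAlgebra k G) →ₗ[MonoidAlgebra k G]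
      (X (q + 1) →₀ MonoidAlgebra k G),
    (∀ x, PosV χ (Finsupp.single x 1 - d 0 (s 0 (Finsupp.single x 1)))) ∧
    ∀ q, q + 1 ≤ n → ∀ x, PosV χ (Finsupp.single x 1 -
      d (q + 1) (s (q + 1) (Finsupp.single x 1)) - s q (d q (Finsupp.single x 1)))

/-- The submonoid `G_χ = {χ ≥ 0}`. -/
def posMon {G : Type} [Group G] (χ : Chr G) : Submonoid G where
  carrier := {g | 0 ≤ val χ g}
  one_mem' := by simp
  mul_mem' := by
    intro a b ha hb
    simp only [Set.mem_setOf_eq, val_mul] at *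
    linarith

/-- The ring homomorphism of group rings induced by a homomorphism of monoids. -/
noncomputable abbrev gmap (k : Type) [CommRing k] {K G : Type} [Monoid K] [Monoid G] (j : K →* G) :
    MonoidAlgebra k K →+* MonoidAlgebra k G := MonoidAlgebra.mapDomainRingHom k j

/-! ## Rings of Novikov type -/

/-- A ring `R` with a homomorphism `ι : k[G] → R` and a valuation-like family of predicates
`V a r` (`r` has value `≥ a`), in which `1 - B` is invertible for all positive finite matrices. -/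
structure NovRing (k G : Type) [CommRing k] [Group G] (χ : Chr G) where
  R : Type
  [ring : Ring R]
  ι : MonoidAlgebra k G →+* R
  V : ℝ → R → Prop
  V_zero : ∀ a, V a 0
  V_mono : ∀ a b r, a ≤ b → V b r → V a r
  V_add : ∀ a r r', V a r → V a r' → V a (r + r')
  V_neg : ∀ a r, V a r → V a (-r)
  V_mul : ∀ a b r r', V a r → V b r' → V (a + b) (r * r')
  V_ι : ∀ g c, V (val χ g) (ι (MonoidAlgebra.single g c))
  V_bdd : ∀ r, ∃ a, V a r
  inv : ∀ (X : Type) [Fintype X] [DecidableEq X] (B : Matrix X X R) (δ : ℝ), 0 < δ →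
    (∀ x y, V δ (B x y)) → IsUnit (1 - B)

attribute [instance] NovRing.ring

/-- Exactness over the Novikov type ring gives push maps, also for subgroups. -/
def N2prop {k G : Type} [CommRing k] [Group G] {χ : Chr G} (N : NovRing k G χ) : Prop :=
  ∀ (K : Type) [Group K] (j : K →* G), Function.Injective j → ∀ (n : ℕ) (F : GRes k K), F.Fin n →
    ExactLT (bcD (N.ι.comp (gmap k j)) F.d) (n + 1) → Push F.d (χ.res j) n

/-! ## Short exact sequences -/

/-- `1 → K → S → Q → 1` is exact. -/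
structure SES {K S Q : Type} [Group K] [Group S] [Group Q] (j : K →* S) (π : S →* Q) : Prop where
  inj : Function.Injective j
  surj : Function.Surjective π
  ex : ∀ s, π s = 1 ↔ ∃ κ, j κ = s

/-- `Δ : k[S] → R[Q]`, `s ↦ ι(s) π(s)`. -/
noncomputable def delta {k S Q R : Type} [CommRing k] [Group S] [Group Q] [Ring R]
    (ι : MonoidAlgebra k S →+* R) (π : S →* Q) : MonoidAlgebra k S →+* MonoidAlgebra R Q :=
  MonoidAlgebra.liftNCRingHom
    ((MonoidAlgebra.singleOneRingHom (R := R) (M := Q)).comp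
      (ι.comp (MonoidAlgebra.singleOneRingHom (R := k) (M := S))))
    ({ toFun := fun s => MonoidAlgebra.single (π s) (ι (MonoidAlgebra.single s 1))
       map_one' := by
        rw [map_one, ← MonoidAlgebra.one_def, map_one, ← MonoidAlgebra.one_def]
       map_mul' := by
        intro a b
        rw [MonoidAlgebra.single_mul_single, ← map_mul, ← map_mul,
          MonoidAlgebra.single_mul_single, one_mul] } : S →* MonoidAlgebra R Q)
    (by
      intro c s
      change MonoidAlgebra.single 1 (ι (MonoidAlgebra.single 1 c)) *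
          MonoidAlgebra.single (π s) (ι (MonoidAlgebra.single s 1)) =
        MonoidAlgebra.single (π s) (ι (MonoidAlgebra.single s 1)) *
          MonoidAlgebra.single 1 (ι (MonoidAlgebra.single 1 c))
      simp only [MonoidAlgebra.single_mul_single, one_mul, mul_one, ← map_mul])

@[simp] lemma delta_single {k S Q R : Type} [CommRing k] [Group S] [Group Q] [Ring R]
    (ι : MonoidAlgebra k S →+* R) (π : S →* Q) (s : S) (c : k) :
    delta ι π (MonoidAlgebra.single s c) =
      MonoidAlgebra.single (π s) (ι (MonoidAlgebra.single s c)) := by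
  rw [delta, MonoidAlgebra.liftNCRingHom_single]
  change MonoidAlgebra.single 1 (ι (MonoidAlgebra.single 1 c)) *
          MonoidAlgebra.single (π s) (ι (MonoidAlgebra.single s 1)) = _
  simp only [MonoidAlgebra.single_mul_single, one_mul, mul_one, ← map_mul]

/-- The augmentation `R[Q] → R`. -/
noncomputable def augR (R Q : Type) [Ring R] [Group Q] : MonoidAlgebra R Q →+* R :=
  MonoidAlgebra.liftNCRingHom (RingHom.id R) (1 : Q →* R) (fun _ _ => Commute.one_right _)

@[simp] lemma augR_single (R Q : Type) [Ring R] [Group Q] (g : Q) (c : R) :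
    augR R Q (MonoidAlgebra.single g c) = c := by
  simp [augR]

lemma augR_delta {k S Q R : Type} [CommRing k] [Group S] [Group Q] [Ring R]
    (ι : MonoidAlgebra k S →+* R) (π : S →* Q) : (augR R Q).comp (delta ι π) = ι := by
  refine RingHom.ext (fun x => ?_)
  induction x using MonoidAlgebra.induction_linear with
  | zero => simp
  | add f g hf hg => simp only [map_add, hf, hg]
  | single s c => simp

end Pool.Agent.Lib.MP_b1a3a4_al.MVS
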