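import Pool.Agent.Lib.MP_b1a3a4_al.MVS.Defs

/-!
# Project MVS (MP_b1a3a4_al): statements of all modules

The proofs are in `Paper.md` (section numbers in the comments).
-/

set_option linter.all false

namespace Pool.Agent.Lib.MP_b1a3a4_al.MVS

open Finsupp

/-! ## A. Linear algebra (section 1) -/

/-- SPLIT (1.1) -/
def SplitStatement : Prop :=
  ∀ (R : Type) [Ring R] (X : ℕ → Type) (d : Dif R X) (n : ℕ), IsCx d →
    (ExactLT d n ↔ ∃ s, Contr d n s)

/-- LIFT (1.2), existence of chain maps -/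
def LiftStatement : Prop :=
  ∀ (R : Type) [Ring R] (A : Type) [AddCommGroup A] [Module R A] (X : ℕ → Type) (d : Dif R X)
    (e : (X 0 →₀ R) →ₗ[R] A), IsCx d → (∀ z, e (d 0 z) = 0) → ∀ F : FreeRes R A,
    ∃ u : ∀ q : ℕ, (X q →₀ R) →ₗ[R] (F.X q →₀ R),
      (∀ z, F.ε (u 0 z) = e z) ∧ ∀ q z, F.d q (u (q + 1) z) = u q (d q z)

/-- HTPY (1.2), existence of homotopies -/
def HtpyStatement : Prop :=
  ∀ (R : Type) [Ring R] (A : Type) [AddCommGroup A] [Module R A] (X : ℕ → Type) (d : Dif R X),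
    IsCx d → ∀ (F : FreeRes R A) (u u' : ∀ q : ℕ, (X q →₀ R) →ₗ[R] (F.X q →₀ R)),
    (∀ q z, F.d q (u (q + 1) z) = u q (d q z)) →
    (∀ q z, F.d q (u' (q + 1) z) = u' q (d q z)) →
    (∀ z, F.ε (u 0 z) = F.ε (u' 0 z)) →
    ∃ h : ∀ q : ℕ, (X q →₀ R) →ₗ[R] (F.X (q + 1) →₀ R),
      (∀ z, u 0 z - u' 0 z = F.d 0 (h 0 z)) ∧
      ∀ q z, u (q + 1) z - u' (q + 1) z = F.d (q + 1) (h (q + 1) z) + h q (d q z)

/-- HEQ (1.2): two resolutions of the same module are homotopy equivalent -/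
def HeqStatement : Prop :=
  ∀ (R : Type) [Ring R] (A : Type) [AddCommGroup A] [Module R A] (F F' : FreeRes R A),
    ∃ (al : ∀ q : ℕ, (F.X q →₀ R) →ₗ[R] (F'.X q →₀ R))
      (be : ∀ q : ℕ, (F'.X q →₀ R) →ₗ[R] (F.X q →₀ R))
      (h : ∀ q : ℕ, (F.X q →₀ R) →ₗ[R] (F.X (q + 1) →₀ R))
      (h' : ∀ q : ℕ, (F'.X q →₀ R) →ₗ[R] (F'.X (q + 1) →₀ R)),
      (∀ z, F'.ε (al 0 z) = F.ε z) ∧ (∀ z, F.ε (be 0 z) = F'.ε z) ∧
      (∀ q z, F'.d q (al (q + 1) z) = al q (F.d q z)) ∧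
      (∀ q z, F.d q (be (q + 1) z) = be q (F'.d q z)) ∧
      (∀ z, z - be 0 (al 0 z) = F.d 0 (h 0 z)) ∧
      (∀ q z, z - be (q + 1) (al (q + 1) z) = F.d (q + 1) (h (q + 1) z) + h q (F.d q z)) ∧
      (∀ z, z - al 0 (be 0 z) = F'.d 0 (h' 0 z)) ∧
      (∀ q z, z - al (q + 1) (be (q + 1) z) = F'.d (q + 1) (h' (q + 1) z) + h' q (F'.d q z))

/-- RESEX (1.3): resolutions exist, also with finite bases if the module is `FP_n`
(use `FreeRes.cons` of `Defs.lean`). -/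
def ResexStatement : Prop :=
  (∀ (R : Type) [Ring R] (A : Type) [AddCommGroup A] [Module R A], Nonempty (FreeRes R A)) ∧
  (∀ (R : Type) [Ring R] (n : ℕ) (A : Type) [AddCommGroup A] [Module R A], IsFP R n A →
    ∃ F : FreeRes R A, F.Fin n)

/-- DOM (1.4) -/
def DomStatement : Prop :=
  ∀ (R : Type) [Ring R] (n : ℕ) (A : Type) [AddCommGroup A] [Module R A]
    (C : ℕ → Type) [∀ q, AddCommGroup (C q)] [∀ q, Module R (C q)]
    (d : ∀ q, C (q + 1) →ₗ[R] C q) (e : C 0 →ₗ[R] A),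
    (∀ q, q + 1 < n → ∀ z, d q (d (q + 1) z) = 0) → (0 < n → ∀ z, e (d 0 z) = 0) →
    (∀ q, q ≤ n → ∃ Y : Type, Finite Y ∧ Nonempty (C q ≃ₗ[R] (Y →₀ R))) →
    ∀ (P : FreeRes R A) (u : ∀ q : ℕ, (P.X q →₀ R) →ₗ[R] C q),
      (∀ z, e (u 0 z) = P.ε z) → (∀ q, q < n → ∀ z, d q (u (q + 1) z) = u q (P.d q z)) →
      IsFP R n A

/-- FPRES (1.3): `FP_n` if and only if there is a resolution with finite bases in degrees `≤ n` -/
def FpresStatement : Prop :=
  ∀ (R : Type) [Ring R] (n : ℕ) (A : Type) [AddCommGroup A] [Module R A],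
    IsFP R n A ↔ ∃ F : FreeRes R A, F.Fin n

/-- FILT (1.5) -/
def FiltStatement : Prop :=
  ∀ (R : Type) [Ring R] (n : ℕ) (A : Type) [AddCommGroup A] [Module R A]
    (M : ℕ → Type) [∀ q, AddCommGroup (M q)] [∀ q, Module R (M q)]
    (d : ∀ q, M (q + 1) →ₗ[R] M q) (e : M 0 →ₗ[R] A) (E : ∀ q : ℕ, ℕ → Submodule R (M q)) (c : ℕ),
    (∀ q z, d q (d (q + 1) z) = 0) → (∀ z, e (d 0 z) = 0) →
    (∀ q r r', r ≤ r' → E q r ≤ E q r') →
    (∀ q, q ≤ n → ∀ r, ∃ Y : Type, Finite Y ∧ Nonempty (E q r ≃ₗ[R] (Y →₀ R))) →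
    (∀ q, q + 1 ≤ n → ∀ r, ∀ z ∈ E (q + 1) r, d q z ∈ E q (r + c)) →
    (∃ r₀, ∀ a, ∃ x ∈ E 0 r₀, e x = a) →
    (1 ≤ n → ∀ r, ∀ z ∈ E 0 r, e z = 0 → ∃ b ∈ E 1 (r + c), d 0 b = z) →
    (∀ q, q + 2 ≤ n → ∀ r, ∀ z ∈ E (q + 1) r, d q z = 0 → ∃ b ∈ E (q + 2) (r + c),
      d (q + 1) b = z) →
    IsFP R n A

/-! ## B. The ring `R(G,χ)` (section 2) -/

/-- representation of the elements of the Novikov type ring by sequences -/
def SeqProp {k G : Type} [CommRing k] [Group G] {χ : Chr G} (N : NovRing k G χ) : Prop :=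
  ∃ rep : (ℕ → MonoidAlgebra k G) → N.R → Prop,
    (∀ r, ∃ u, rep u r) ∧
    (∀ a, rep (fun _ => a) (N.ι a)) ∧
    (∀ u u' r r', rep u r → rep u' r' → rep (fun i => u i + u' i) (r + r')) ∧
    (∀ u u' r r', rep u r → rep u' r' → rep (fun i => u i * u' i) (r * r')) ∧
    (∀ u, rep u 0 → ∀ T : ℝ, ∃ i₀, ∀ i, i₀ ≤ i → ∀ g ∈ (u i).coeff.support, T ≤ val χ g)

/-- RSEQ (2.1), (2.2) -/
def RseqStatement : Prop :=
  ∀ (k G : Type) [CommRing k] [Group G] (χ : Chr G), ∃ N : NovRing k G χ, SeqProp N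

/-- N2 (2.4) -/
def N2Statement : Prop :=
  ∀ (k G : Type) [CommRing k] [Group G] (χ : Chr G) (N : NovRing k G χ), SeqProp N → N2prop N

/-- N1 (2.3) -/
def N1Statement : Prop :=
  ∀ (k S K : Type) [CommRing k] [Group S] [Group K] (χ : Chr S) (N : NovRing k S χ) (j : K →* S)
    (n : ℕ) (F : GRes k K), F.Fin n → Push F.d (χ.res j) n →
    ExactLT (bcD (N.ι.comp (gmap k j)) F.d) (n + 1)

/-! ## C. Short exact sequences (section 3) -/

/-- TRANSFER (3.1) -/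
def TransferStatement : Prop :=
  ∀ (k K S Q R : Type) [CommRing k] [Group K] [Group S] [Group Q] [Ring R]
    (j : K →* S) (π : S →* Q), SES j π → ∀ (ι : MonoidAlgebra k S →+* R) (FK : GRes k K)
    (FS : GRes k S),
    ∃ (al : ∀ q : ℕ, FK.X q → (FS.X q →₀ MonoidAlgebra k S))
      (be : ∀ q : ℕ, (FS.X q →₀ MonoidAlgebra R Q) →ₗ[R] (FK.X q →₀ R)),
      /- `al` is a chain map `j_* FK → FS` over `k` -/
      (∀ y, (FS.ε (al 0 y) : k) = (FK.ε (single y 1) : k)) ∧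
      (∀ q y, FS.d q (al (q + 1) y) =
        Finsupp.linearCombination (MonoidAlgebra k S) (al q)
          (mp (gmap k j) (FK.d q (single y 1)))) ∧
      /- the induced map `E → D` is a chain map -/
      (∀ q z, bcD (delta ι π) FS.d q
          (Finsupp.linearCombination R (fun y => mp (delta ι π) (al (q + 1) y)) z) =
        Finsupp.linearCombination R (fun y => mp (delta ι π) (al q y))
          (bcD (ι.comp (gmap k j)) FK.d q z)) ∧
      /- `be` is a chain map -/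
      (∀ q z, bcD (ι.comp (gmap k j)) FK.d q (be (q + 1) z) =
        be q (bcD (delta ι π) FS.d q z)) ∧
      (∀ q z, IsCyc (bcD (delta ι π) FS.d) q z → ∃ w, bcD (delta ι π) FS.d q w =
        z - Finsupp.linearCombination R (fun y => mp (delta ι π) (al q y)) (be q z)) ∧
      (∀ q e, IsCyc (bcD (ι.comp (gmap k j)) FK.d) q e → ∃ w,
        bcD (ι.comp (gmap k j)) FK.d q w =
        e - be q (Finsupp.linearCombination R (fun y => mp (delta ι π) (al q y)) e))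

/-- AUG (3.2), (3.3) -/
def AugStatement : Prop :=
  ∀ (k K S Q R : Type) [CommRing k] [Group K] [Group S] [Group Q] [Ring R]
    (j : K →* S) (π : S →* Q), SES j π → ∀ (ι : MonoidAlgebra k S →+* R) (FK : GRes k K)
    (FS : GRes k S) (m : ℕ),
    (ExactLT (bcD (ι.comp (gmap k j)) FK.d) m ↔ ExactLT (bcD (delta ι π) FS.d) m) ∧
    (ExactLT (bcD (delta ι π) FS.d) m → ExactLT (bcD ι FS.d) m)

/-- CASEALG (3.4) -/
def CaseAlgStatement : Prop :=
  ∀ (k K S Q R : Type) [CommRing k] [Group K] [Group S] [Group Q] [Ring R]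
    (j : K →* S) (π : S →* Q), SES j π → ∀ (ι : MonoidAlgebra k S →+* R) (FK : GRes k K)
    (FS : GRes k S) (a : S), (∀ κ, a * j κ = j κ * a) →
    IsUnit (1 - ι (MonoidAlgebra.single a 1)) → ∀ n : ℕ,
    ExactLT (bcD (ι.comp (gmap k j)) FK.d) n → ExactLT (bcD ι FS.d) (n + 1)

/-- UP (end of section 7): push maps pass from a normal subgroup to the group -/
def UpStatement : Prop :=
  ∀ (k K S Q : Type) [CommRing k] [Group K] [Group S] [Group Q]
    (j : K →* S) (π : S →* Q), SES j π → ∀ (χ : Chr S) (n : ℕ) (FK : GRes k K)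
    (FS : GRes k S), FK.Fin n → FS.Fin n → Push FK.d (χ.res j) n → Push FS.d χ n

/-- CASEPUSH: (2.3) + (3.4) + (2.4) -/
def CasePushStatement : Prop :=
  ∀ (k K S Q : Type) [CommRing k] [Group K] [Group S] [Group Q]
    (j : K →* S) (π : S →* Q), SES j π → ∀ (χ : Chr S) (n : ℕ) (FK : GRes k K)
    (FS : GRes k S), FK.Fin n → FS.Fin (n + 1) → Push FK.d (χ.res j) n →
    ∀ a : S, (∀ κ, a * j κ = j κ * a) → val χ a ≠ 0 → Push FS.d χ (n + 1)

/-- FINSTEP (6.5) -/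
def FinStepStatement : Prop :=
  ∀ (k S S' Q : Type) [CommRing k] [Group S] [Group S'] [Group Q] [Finite Q]
    (j : S →* S') (π : S' →* Q), SES j π → ∀ (χ : Chr S') (n : ℕ) (F : GRes k S)
    (F' : GRes k S'), F.Fin n → F'.Fin n → Push F'.d χ n → Push F.d (χ.res j) n

/-! ## D. Cut and push (section 4) -/

/-- CUT (4.1) -/
def CutStatement : Prop :=
  ∀ (k G : Type) [CommRing k] [Group G] (χ : Chr G) (n : ℕ) (F : GRes k G), F.Fin n →
    Push F.d χ n → ∃ C : ℝ, 0 ≤ C ∧ ∀ q, q + 1 ≤ n → ∀ (b : F.X (q + 1) →₀ MonoidAlgebra k G)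
      (D : ℝ), LB χ (-D) (F.d q b) → ∃ b', F.d q b' = F.d q b ∧ LB χ (-D - C) b' ∧
        ∀ U : ℝ, UB χ U b → UB χ (max U (-D + C)) b'

/-- KERNEL (4.2) -/
def KernelStatement : Prop :=
  ∀ (k S G : Type) [CommRing k] [Group S] [Group G] (j : S →* G) (ψ : G →* Multiplicative ℤ),
    SES j ψ → ∀ (n : ℕ) (F : GRes k G), F.Fin n → Push F.d (intChr ψ) n →
    Push F.d (-(intChr ψ)) n → FPn k S n

/-- MONOID (4.3) -/
def MonoidStatement : Prop :=
  ∀ (k G : Type) [CommRing k] [Group G] (χ : Chr G), χ ≠ 0 → ∀ (n : ℕ) (F : GRes k G),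
    F.Fin n → Push F.d χ n → FPn k (posMon χ) n

/-! ## E. Facts about type `FP_n` (4.4) -/

/-- a module over `B` as a module over `A` through `f : A → B` -/
def Rst {A B : Type} [Ring A] [Ring B] (f : A →+* B) (M : Type) : Type := M

noncomputable instance {A B : Type} [Ring A] [Ring B] (f : A →+* B) (M : Type) [AddCommGroup M] :
    AddCommGroup (Rst f M) := inferInstanceAs (AddCommGroup M)

noncomputable instance {A B : Type} [Ring A] [Ring B] (f : A →+* B) (M : Type) [AddCommGroup M]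
    [Module B M] : Module A (Rst f M) := Module.compHom M f

/-- FPEXT (4.4)(i) -/
def FpextStatement : Prop :=
  ∀ (R : Type) [Ring R] (A' A A'' : Type) [AddCommGroup A'] [AddCommGroup A] [AddCommGroup A'']
    [Module R A'] [Module R A] [Module R A''] (i : A' →ₗ[R] A) (p : A →ₗ[R] A''),
    Function.Injective i → Function.Surjective p → (∀ x, p x = 0 ↔ ∃ y, i y = x) → ∀ n : ℕ,
    (IsFP R n A' → IsFP R n A'' → IsFP R n A) ∧
    (IsFP R n A' → IsFP R (n + 1) A → IsFP R (n + 1) A'') ∧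
    (IsFP R (n + 1) A → IsFP R n A)

/-- FPLIN: invariance under linear equivalences, free modules, finite direct sums -/
def FplinStatement : Prop :=
  ∀ (R : Type) [Ring R] (n : ℕ),
    (∀ (A B : Type) [AddCommGroup A] [AddCommGroup B] [Module R A] [Module R B],
      (A ≃ₗ[R] B) → IsFP R n A → IsFP R n B) ∧
    (∀ X : Type, Finite X → IsFP R n (X →₀ R)) ∧
    (∀ (X A : Type) [AddCommGroup A] [Module R A], Finite X → IsFP R n A → IsFP R n (X →₀ A))

/-- FPISO: invariance under isomorphisms of monoids -/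
def FpisoStatement : Prop :=
  ∀ (k G H : Type) [CommRing k] [Monoid G] [Monoid H] (n : ℕ), (G ≃* H) → FPn k G n → FPn k H n

/-- FPIND (4.4)(ii), induced modules -/
def FpindStatement : Prop :=
  ∀ (k N G Q : Type) [CommRing k] [Group N] [Group G] [Group Q] (j : N →* G) (π : G →* Q),
    SES j π → ∀ n : ℕ, FPn k N n →
    IsFP (MonoidAlgebra k G) n (Rst (gmap k π) (MonoidAlgebra k Q))

/-- FPGRP (4.4)(ii), extensions of groups -/
def FpgrpStatement : Prop :=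
  ∀ (k N G Q : Type) [CommRing k] [Group N] [Group G] [Group Q] (j : N →* G) (π : G →* Q),
    SES j π → ∀ n : ℕ, FPn k N n → FPn k Q n → FPn k G n

/-- FPFIN: finite groups and the infinite cyclic group are `FP_n` -/
def FpfinStatement : Prop :=
  ∀ (k : Type) [CommRing k] (n : ℕ),
    (∀ (Q : Type) [Group Q], Finite Q → FPn k Q n) ∧ FPn k (Multiplicative ℤ) n

/-- FPFI (4.4)(iii): subgroups of finite index -/
def FpfiStatement : Prop :=
  ∀ (k H G : Type) [CommRing k] [Group H] [Group G] (j : H →* G), Function.Injective j →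
    j.range.FiniteIndex → ∀ n : ℕ, FPn k G n → FPn k H n

/-- FPRET (4.4)(iv): retracts -/
def FpretStatement : Prop :=
  ∀ (k A G : Type) [CommRing k] [Group A] [Group G] (i : A →* G) (r : G →* A),
    (∀ a, r (i a) = a) → ∀ n : ℕ, FPn k G n → FPn k A n

/-- FPQ (4.4)(v) -/
def FpqStatement : Prop :=
  ∀ (G : Type) [Monoid G] (n : ℕ), FPn ℤ G n → FPn ℚ G n

/-- FPFG: `FP_1` groups are finitely generated -/
def FpfgStatement : Prop :=
  ∀ (k G : Type) [CommRing k] [Nontrivial k] [Group G], FPn k G 1 → Group.FG G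

/-! ## F. The hemisphere theorem (section 5) -/

/-- WALK: the walking argument in (5.5) -/
def WalkStatement : Prop :=
  ∀ (H : Type) [AddCommGroup H] (P : ℤ → ℝ → H → Prop) (c : ℝ), 0 < c →
    (∀ μ : ℝ, |μ| ≤ c → ∃ δ : ℝ, 0 < δ ∧ ∃ J : Finset ℤ, ∀ j x h, P j x h →
      h ∈ AddSubgroup.closure {h' | ∃ j' ∈ J, P (j + j') (x + δ - μ * j') h'}) →
    ∀ (h : H) (j₀ : ℤ) (x₀ : ℝ), P j₀ x₀ h → ∀ T : ℝ,
      h ∈ AddSubgroup.closure {h' | ∃ (j : ℤ) (x : ℝ), P j x h' ∧ c * |(j : ℝ)| + T ≤ x}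

/-- `v_λ(γ) ≥ a` for `γ ∈ R[τ^{±1}]` -/
def VG {k G : Type} [CommRing k] [Group G] {χ : Chr G} (N : NovRing k G χ) (lam a : ℝ)
    (γ : MonoidAlgebra N.R (Multiplicative ℤ)) : Prop :=
  ∀ i : ℤ, N.V (a - lam * i) (γ.coeff (Multiplicative.ofAdd i))

/-- HEMIALG (5.3)-(5.5) -/
def HemiAlgStatement : Prop :=
  ∀ (k G : Type) [CommRing k] [Group G] (χ : Chr G) (N : NovRing k G χ) (H : Type)
    [AddCommGroup H] [Module (MonoidAlgebra N.R (Multiplicative ℤ)) H]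
    (W X : Type) [Fintype W] [Fintype X] (y : W → H) (e : X → H),
    (∀ h : H, ∃ r : W → N.R, h = ∑ w, (MonoidAlgebra.single (1 : Multiplicative ℤ) (r w)) • y w) →
    (∀ h : H, ∃ γ : X → MonoidAlgebra N.R (Multiplicative ℤ), h = ∑ x, γ x • e x) →
    (∀ lam C : ℝ, ∃ B : X → X → MonoidAlgebra N.R (Multiplicative ℤ),
      (∀ x x', VG N lam C (B x x')) ∧ ∀ x, e x = ∑ x', B x x' • e x') →
    ∀ h : H, h = 0

/-- HEMI (section 5) -/
def HemiStatement : Prop :=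
  ∀ (k S S' : Type) [CommRing k] [Group S] [Group S'] (j : S →* S')
    (ψ : S' →* Multiplicative ℤ), SES j ψ → ∀ (χ : Chr S') (n : ℕ) (F : GRes k S)
    (F' : GRes k S'), F.Fin n → F'.Fin n →
    (∀ lam : ℝ, Push F'.d (χ + lam • intChr ψ) n) → Push F.d (χ.res j) n

/-! ## G. Groups (sections 6, 7, 8) -/

section groups

/-- kernel of the projection `p_J` -/
def kerJ {I : Type} (L : I → Type) [∀ i, Group (L i)] (J : Finset I) :
    Subgroup (∀ i, L i) where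
  carrier := {x | ∀ j ∈ J, x j = 1}
  one_mem' := by simp
  mul_mem' := by
    intro a b ha hb j hj
    simp [ha j hj, hb j hj]
  inv_mem' := by
    intro a ha j hj
    simp [ha j hj]

/-- `p_j(S)` -/
def pr {I : Type} {L : I → Type} [∀ i, Group (L i)] (S : Subgroup (∀ i, L i)) (j : I) :
    Subgroup (L j) := S.map (Pi.evalMonoidHom L j)

/-- `N_j(S)` -/
def nr {I : Type} [DecidableEq I] {L : I → Type} [∀ i, Group (L i)] (S : Subgroup (∀ i, L i))
    (j : I) : Subgroup (L j) := S.comap (MonoidHom.mulSingle L j)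

/-- `Π_U(S)` -/
def piS {I : Type} {L : I → Type} [∀ i, Group (L i)] (U : Finset I)
    (S : Subgroup (∀ i, L i)) : Subgroup (∀ i, L i) where
  carrier := {x | (∀ j, x j ∈ pr S j) ∧ ∀ j, j ∉ U → x j = 1}
  one_mem' := ⟨fun j => one_mem _, fun _ _ => rfl⟩
  mul_mem' := by
    intro a b ha hb
    refine ⟨fun j => mul_mem (ha.1 j) (hb.1 j), fun j hj => ?_⟩
    simp [ha.2 j hj, hb.2 j hj]
  inv_mem' := by
    intro a ha
    refine ⟨fun j => inv_mem (ha.1 j), fun j hj => ?_⟩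
    simp [ha.2 j hj]

/-- lower central series of a subgroup: `lcs H 0 = H`, `lcs H (w+1) = ⁅lcs H w, H⁆` -/
def lcs {G : Type} [Group G] (H : Subgroup G) : ℕ → Subgroup G
  | 0 => H
  | w + 1 => ⁅lcs H w, H⁆

/-- Hypotheses (A1)-(A3) of `P(n)`. -/
structure Setup (k : Type) [CommRing k] (n : ℕ) {I : Type} [DecidableEq I] {L : I → Type}
    [∀ i, Group (L i)] (U : Finset I) (S : Subgroup (∀ i, L i)) : Prop where
  supp : ∀ s ∈ S, ∀ i, i ∉ U → s i = 1
  a1 : ∀ j ∈ U, FPn k (pr S j) n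
  a2 : ∀ J, J ⊆ U → J.card ≤ n → (S ⊔ kerJ L J).relIndex (piS U S) ≠ 0
  a3 : ∃ c, ∀ j ∈ U, lcs (pr S j) c ≤ nr S j

/-- the condition on `χ` in `P(n)(b)` -/
def CondB (n : ℕ) {I : Type} {L : I → Type} [∀ i, Group (L i)] (U : Finset I)
    (S : Subgroup (∀ i, L i)) (χ : Chr S) : Prop :=
  ∀ J, J ⊆ U → J.card ≤ n → ∃ s : S, (∀ j ∈ J, (s : ∀ i, L i) j = 1) ∧ val χ s ≠ 0

/-- the conclusion `P(n)(b)` -/
def ConclB (k : Type) [CommRing k] (n : ℕ) {I : Type} {L : I → Type} [∀ i, Group (L i)]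
    (U : Finset I) (S : Subgroup (∀ i, L i)) : Prop :=
  ∀ χ : Chr S, CondB n U S χ → ∀ F : GRes k S, F.Fin n → Push F.d χ n

/-- `P(n)` -/
def PAt (k : Type) [CommRing k] (n : ℕ) : Prop :=
  ∀ (I : Type) [Fintype I] [DecidableEq I] (L : I → Type) [∀ i, Group (L i)] (U : Finset I)
    (S : Subgroup (∀ i, L i)), Setup k n U S → FPn k S n ∧ ConclB k n U S

/-- the conclusion of the Case A Lemma (6.1) -/
def CaseAAt (k : Type) [CommRing k] (n : ℕ) : Prop :=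
  ∀ (I : Type) [Fintype I] [DecidableEq I] (L : I → Type) [∀ i, Group (L i)] (U : Finset I)
    (S : Subgroup (∀ i, L i)), Setup k n U S → ∀ χ : Chr S, CondB n U S χ →
    (∃ i ∈ U, ∃ (x : L i) (h : Pi.mulSingle i x ∈ S), val χ ⟨_, h⟩ ≠ 0) →
    ∀ F : GRes k S, F.Fin n → Push F.d χ n

/-- P0: `P(0)` -/
def P0Statement : Prop := ∀ (k : Type) [CommRing k] [Nontrivial k], PAt k 0

/-- CASEA (6.1) -/
def CaseAStatement : Prop :=
  ∀ (k : Type) [CommRing k] [Nontrivial k] (n : ℕ), PAt k n → CaseAAt k (n + 1)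

/-- BASE (6.2) -/
def BaseStatement : Prop :=
  ∀ (k : Type) [CommRing k] [Nontrivial k] (n : ℕ), CaseAAt k n →
    ∀ (I : Type) [Fintype I] [DecidableEq I] (L : I → Type) [∀ i, Group (L i)] (U : Finset I)
    (S : Subgroup (∀ i, L i)), Setup k n U S → piS U S ≤ S → FPn k S n ∧ ConclB k n U S

/-- STEP (6.3) -/
def StepStatement : Prop :=
  ∀ (k : Type) [CommRing k] [Nontrivial k] (n : ℕ), CaseAAt k n →
    ∀ (I : Type) [Fintype I] [DecidableEq I] (L : I → Type) [∀ i, Group (L i)] (U : Finset I)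
    (S : Subgroup (∀ i, L i)), Setup k n U S → ∀ i ∈ U, ∀ t₀ ∈ pr S i,
    (∀ x ∈ pr S i, t₀ * x * t₀⁻¹ * x⁻¹ ∈ nr S i) →
    (FPn k (S ⊔ Subgroup.zpowers (Pi.mulSingle i t₀ : ∀ i, L i) : Subgroup (∀ i, L i)) n ∧
      ConclB k n U (S ⊔ Subgroup.zpowers (Pi.mulSingle i t₀ : ∀ i, L i))) →
    FPn k S n ∧ ConclB k n U S

/-- SETUPUP: the hypotheses go up to groups between `S` and `Π_U(S)` -/
def SetupUpStatement : Prop :=
  ∀ (k : Type) [CommRing k] (n : ℕ) (I : Type) [Fintype I] [DecidableEq I] (L : I → Type)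
    [∀ i, Group (L i)] (U : Finset I) (S S' : Subgroup (∀ i, L i)), Setup k n U S → S ≤ S' →
    S' ≤ piS U S → Setup k n U S' ∧ piS U S' = piS U S ∧ ∀ j, pr S' j = pr S j

/-- CHAIN (6.4) -/
def ChainStatement : Prop :=
  ∀ (I : Type) [Fintype I] [DecidableEq I] (L : I → Type) [∀ i, Group (L i)] (U : Finset I)
    (S : Subgroup (∀ i, L i)), (∀ s ∈ S, ∀ i, i ∉ U → s i = 1) → (∀ j ∈ U, (pr S j).FG) →
    (∃ c, ∀ j ∈ U, lcs (pr S j) c ≤ nr S j) → ∀ Pr : Subgroup (∀ i, L i) → Prop,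
    (∀ S', S ≤ S' → S' ≤ piS U S → ∀ i ∈ U, ∀ t₀ ∈ pr S i,
      (∀ x ∈ pr S i, t₀ * x * t₀⁻¹ * x⁻¹ ∈ nr S' i) →
      Pr (S' ⊔ Subgroup.zpowers (Pi.mulSingle i t₀ : ∀ i, L i)) → Pr S') →
    Pr (piS U S) → Pr S

/-- PN: `P(n)` for all `n` -/
def PNStatement : Prop := ∀ (k : Type) [CommRing k] [Nontrivial k] (n : ℕ), PAt k n

/-- TOPGRP: group theory of section 7 -/
def TopGrpStatement : Prop :=
  ∀ (I : Type) [Fintype I] [DecidableEq I] (L : I → Type) [∀ i, Group (L i)]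
    (S : Subgroup (∀ i, L i)) (n : ℕ), 2 ≤ n → n ≤ Fintype.card I →
    (∀ J : Finset I, J.card = n → (S.map (projJ L J)).FiniteIndex) →
    ∃ S' : Subgroup (∀ i, L i), S' ≤ S ∧ (∀ s ∈ S, ∀ t ∈ S', s * t * s⁻¹ ∈ S') ∧
      S'.relIndex S ≠ 0 ∧ (∀ j, (pr S' j).FiniteIndex) ∧
      (∀ J : Finset I, J.card ≤ n → (S' ⊔ kerJ L J).relIndex (piS Finset.univ S') ≠ 0) ∧
      ∃ c, ∀ j, lcs (pr S' j) c ≤ nr S' j

/-- TOPFP: section 8, type `FP_n` of the factors -/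
def TopFpStatement : Prop :=
  ∀ (k : Type) [CommRing k] [Nontrivial k] (n : ℕ), 1 ≤ n →
    ∀ (I : Type) [Fintype I] [DecidableEq I] (L : I → Type) [∀ i, Group (L i)]
    (S' : Subgroup (∀ i, L i)), FPn k S' n → (∃ c, ∀ j, lcs (pr S' j) c ≤ nr S' j) →
    ∀ j, FPn k (pr S' j) n

/-- the hypothesis on the character in the problem: `p_J(S_χ) = p_J(S)` for `|J| = n` -/
def CharCond {I : Type} (n : ℕ) (L : I → Type) [∀ i, Group (L i)] (S : Subgroup (∀ i, L i))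
    (χ : Chr S) : Prop :=
  ∀ J : Finset I, J.card = n → ∀ s : S, ∃ s' : S, 0 ≤ val χ s' ∧
    ∀ j ∈ J, (s' : ∀ i, L i) j = (s : ∀ i, L i) j

/-- TOP2: second form (section 7): the factors are `FP_n` -/
def Top2Statement : Prop :=
  ∀ (k : Type) [CommRing k] [Nontrivial k] (n : ℕ), 2 ≤ n →
    ∀ (I : Type) [Fintype I] [DecidableEq I] (L : I → Type) [∀ i, Group (L i)]
    (S : Subgroup (∀ i, L i)), n ≤ Fintype.card I → (∀ i, FPn k (L i) n) →
    (∀ J : Finset I, J.card = n → (S.map (projJ L J)).FiniteIndex) →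
    FPn k S n ∧ ∀ χ : Chr S, χ ≠ 0 → CharCond n L S χ → FPn k (posMon χ) n

/-- TOP1: first form (section 8): `S` is `FP_n` -/
def Top1Statement : Prop :=
  ∀ (k : Type) [CommRing k] [Nontrivial k] (n : ℕ), 2 ≤ n →
    ∀ (I : Type) [Fintype I] [DecidableEq I] (L : I → Type) [∀ i, Group (L i)]
    (S : Subgroup (∀ i, L i)), n ≤ Fintype.card I → FPn k S n →
    (∀ J : Finset I, J.card = n → (S.map (projJ L J)).FiniteIndex) →
    ∀ χ : Chr S, χ ≠ 0 → CharCond n L S χ → FPn k (posMon χ) n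

end groups

end Pool.Agent.Lib.MP_b1a3a4_al.MVS
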