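import Pool.Agent.Lib.MP_b1a3a4_al.MVS.H12.FinStep
import Pool.Agent.Lib.MP_b1a3a4_al.MVS.H12.N1
import Pool.Agent.Lib.MP_b1a3a4_al.MVS.H12.N2
import Pool.Agent.Lib.MP_b1a3a4_al.MVS.H12.Walk
import Pool.Agent.Lib.MP_b1a3a4_al.MVS.H19.Cut
import Pool.Agent.Lib.MP_b1a3a4_al.MVS.H19.PZero
import Pool.Agent.Lib.MP_b1a3a4_al.MVS.H27.CaseA
import Pool.Agent.Lib.MP_b1a3a4_al.MVS.H27.FPFG
import Pool.Agent.Lib.MP_b1a3a4_al.MVS.H27.PN
import Pool.Agent.Lib.MP_b1a3a4_al.MVS.H27.Top
import Pool.Agent.Lib.MP_b1a3a4_al.MVS.H27.TopGrp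
import Pool.Agent.Lib.MP_b1a3a4_al.MVS.H29.HemiAlg
import Pool.Agent.Lib.MP_b1a3a4_al.MVS.H29.TopFp
import Pool.Agent.Lib.MP_b1a3a4_al.MVS.H30.Aug
import Pool.Agent.Lib.MP_b1a3a4_al.MVS.H30.Fpq
import Pool.Agent.Lib.MP_b1a3a4_al.MVS.H32.Hemi
import Pool.Agent.Lib.MP_b1a3a4_al.MVS.H37.Fpfi
import Pool.Agent.Lib.MP_b1a3a4_al.MVS.H38.Dom
import Pool.Agent.Lib.MP_b1a3a4_al.MVS.H38.Filt
import Pool.Agent.Lib.MP_b1a3a4_al.MVS.H38.FpIso
import Pool.Agent.Lib.MP_b1a3a4_al.MVS.H38.FpRet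
import Pool.Agent.Lib.MP_b1a3a4_al.MVS.H38.Lift
import Pool.Agent.Lib.MP_b1a3a4_al.MVS.H38.Resex
import Pool.Agent.Lib.MP_b1a3a4_al.MVS.H38.Up
import Pool.Agent.Lib.MP_b1a3a4_al.MVS.H45.Final
import Pool.Agent.Lib.MP_b1a3a4_al.MVS.H45.Step
import Pool.Agent.Lib.MP_b1a3a4_al.MVS.H47.Base
import Pool.Agent.Lib.MP_b1a3a4_al.MVS.H47.Transfer
import Pool.Agent.Lib.MP_b1a3a4_al.MVS.H49.Casealg
import Pool.Agent.Lib.MP_b1a3a4_al.MVS.H49.Fpfin
import Pool.Agent.Lib.MP_b1a3a4_al.MVS.H65.FpExt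
import Pool.Agent.Lib.MP_b1a3a4_al.MVS.H65.FpGrp
import Pool.Agent.Lib.MP_b1a3a4_al.MVS.H65.FpLin
import Pool.Agent.Lib.MP_b1a3a4_al.MVS.H69.Rseq
import Pool.Agent.Lib.MP_b1a3a4_al.MVS.H84.Fpind
import Pool.Agent.Lib.MP_b1a3a4_al.MVS.H84.Kernel
import Pool.Agent.Lib.MP_b1a3a4_al.MVS.H88.Chain
import Pool.Agent.Lib.MP_b1a3a4_al.MVS.H88.Monoid

/-!
# Project MVS (MP_b1a3a4_al): assembly
-/

set_option linter.all false

namespace Pool.Agent.Lib.MP_b1a3a4_al.MVS

theorem splitT : SplitStatement := H38.split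
theorem liftT : LiftStatement := H38.lift
theorem htpyT : HtpyStatement := H38.htpy
theorem heqT : HeqStatement := H38.heq liftT htpyT
theorem resexT : ResexStatement := H38.resex
theorem domT : DomStatement := H38.dom liftT resexT
theorem fpresT : FpresStatement := H38.fpres domT resexT
theorem filtT : FiltStatement := H38.filt domT resexT
theorem rseqT : RseqStatement := H69.rseq
theorem n2T : N2Statement := H12.n2 splitT
theorem n1T : N1Statement := H12.n1
theorem transferT : TransferStatement := H47.transfer heqT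
theorem augT : AugStatement := H30.aug transferT splitT
theorem casealgT : CaseAlgStatement := H49.casealg transferT augT splitT htpyT
theorem upT : UpStatement := H38.up rseqT n2T n1T augT
theorem casepushT : CasePushStatement := H38.casepush rseqT n2T n1T casealgT
theorem finstepT : FinStepStatement := H12.finstep rseqT n2T augT
theorem cutT : CutStatement := H19.cut
theorem kernelT : KernelStatement := H84.kernel filtT cutT
theorem monoidT : MonoidStatement := H88.monoid filtT cutT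
theorem fpindT : FpindStatement := H84.fpind fpresT
theorem fpgrpT : FpgrpStatement := H65.fpgrp fpindT
theorem fpfinT : FpfinStatement := H49.fpfin
theorem fpfiT : FpfiStatement := H37.fpfi fpresT
theorem fpisoT : FpisoStatement := H38.fpiso
theorem fpretT : FpretStatement := H38.fpret domT fpresT resexT liftT
theorem fpqT : FpqStatement := H30.fpq fpresT
theorem fpfgT : FpfgStatement := H27.fpfg
theorem hemialgT : HemiAlgStatement := H29.hemialg H12.walk
theorem hemiT : HemiStatement := H32.hemi hemialgT transferT augT splitT rseqT n2T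
theorem setupupT : SetupUpStatement := H27.setupup
theorem chainT : ChainStatement := H88.chain
theorem stepT : StepStatement := H45.step setupupT kernelT hemiT finstepT fpfiT fpresT
theorem caseaT : CaseAStatement := H27.casea casepushT fpfiT fpresT
theorem baseT : BaseStatement := H47.base fpgrpT fpfinT
theorem pnT : PNStatement := H27.pn H19.p0 caseaT baseT stepT setupupT chainT fpfgT
theorem topgrpT : TopGrpStatement := H27.topgrp
theorem topfpT : TopFpStatement := H29.topfp chainT fpgrpT fpfinT fpretT fpisoT fpfgT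
theorem top2T : Top2Statement := H27.top2 pnT topgrpT fpfiT fpgrpT fpfinT fpresT upT monoidT
theorem top1T : Top1Statement := H27.top1 pnT topgrpT topfpT fpfiT fpresT upT monoidT

theorem finalT : H45.FinalStatement := H45.final top1T fpisoT fpqT

/-- Final form: with the definitions of `Core.lean`. -/
theorem sigmaT (m n : ℕ) (hn : 2 ≤ n) (hm : n ≤ m) (L : Fin m → Type) [∀ i, Group (L i)]
    (S : Subgroup (∀ i, L i)) (hS : FPn ℤ S n) (I : Finset (Fin m)) (hI : InjOn S I)
    (hVS : VirtSurj S I n) (χ : S →* Multiplicative ℝ) (hχ : χ ≠ 1) (hc : SameProj S χ n) :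
    InSigma ℤ n χ ∧ InSigma ℚ n χ := by
  refine finalT m n hn hm L S hS I hI hVS χ hχ (fun J hJ => ?_)
  have h := hc J hJ
  rw [Set.image_image] at h
  rw [h]
  ext x
  constructor
  · rintro ⟨s, hs, rfl⟩; exact ⟨⟨s, hs⟩, rfl⟩
  · rintro ⟨s, rfl⟩; exact ⟨s, s.2, rfl⟩

end Pool.Agent.Lib.MP_b1a3a4_al.MVS
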